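import Pool.Agent.HP27.PG.C
import Pool.Agent.HP25.NI.E

set_option autoImplicit false

/-! Collision probabilities from moments; windows around random numbers with bounded moments. -/

namespace Pool.Agent.H34x.WV
open Finset
open Pool.Agent.H807R2.Dav
open Pool.Agent.TH872.Sq
open Pool.Agent.HP25.PD (big_sum tuples even_norm fold)
open Pool.Agent.HP25.OS (Mo)
open Pool.Agent.HP27.EN (coll)

/-- the collisions of real numbers are bounded by a moment of the exponential sum -/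
lemma near_count {ι : Type} [Fintype ι] (p : ℕ) (hp : 1 ≤ p) (g : ι → ℝ) (T M : ℕ)
    (hT : 1 ≤ T) (hM1 : 1 ≤ M) (hM : 12 * p * T ≤ M) :
    (∑ q : (Fin p → ι) × (Fin p → ι), if |∑ j, g (q.1 j) - ∑ j, g (q.2 j)| ≤ 1 then (1 : ℝ) else 0) * T ≤
      8 * ∑ t ∈ range T, ‖∑ i, ee ((t : ℝ) / M * g i)‖ ^ (2 * p) := by
  classical
  have hTr : (1 : ℝ) ≤ T := by exact_mod_cast hT
  have hMr : (1 : ℝ) ≤ M := by exact_mod_cast hM1
  obtain ⟨Y, hY⟩ : ∃ Y : (Fin p → ι) × (Fin p → ι) → ℝ, ∀ q, Y q = ∑ j, g (q.1 j) - ∑ j, g (q.2 j) := ⟨_, fun _ => rfl⟩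
  obtain ⟨H, hH⟩ : ∃ H : ℤ → ℝ, ∀ s, H s = ‖∑ i, ee ((s : ℝ) / M * g i)‖ ^ (2 * p) := ⟨_, fun _ => rfl⟩
  obtain ⟨E, hE⟩ : ∃ E : ℝ, E = ∑ q : (Fin p → ι) × (Fin p → ι), if |∑ j, g (q.1 j) - ∑ j, g (q.2 j)| ≤ 1 then (1 : ℝ) else 0 :=
    ⟨_, rfl⟩
  rw [← hE]
  -- lower bound
  have h1 : E * ((T : ℝ) / 2) ^ 2 ≤ ∑ q : (Fin p → ι) × (Fin p → ι), ‖∑ t ∈ range T, ee ((t : ℝ) * (Y q / M))‖ ^ 2 := by
    rw [hE, sum_mul]
    apply sum_le_sum
    intro q _
    split_ifs with hq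
    · rw [one_mul]
      apply pow_le_pow_left₀ (by positivity)
      apply big_sum
      have hYq : |Y q| ≤ 1 := by rw [hY]; exact hq
      rw [abs_div, abs_of_pos (by linarith : (0 : ℝ) < M), div_mul_eq_mul_div, div_le_iff₀ (by linarith)]
      have hMM : (12 * p * T : ℝ) ≤ M := by exact_mod_cast hM
      have hpr : (1 : ℝ) ≤ p := by exact_mod_cast hp
      have h3 : |Y q| * T ≤ 1 * T := mul_le_mul_of_nonneg_right hYq (by linarith)
      have h4 : (12 : ℝ) * 1 * T ≤ 12 * p * T := by gcongr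
      linarith
    · rw [zero_mul]
      positivity
  -- evaluation
  have h2 : ∑ q : (Fin p → ι) × (Fin p → ι), ‖∑ t ∈ range T, ee ((t : ℝ) * (Y q / M))‖ ^ 2 =
      ∑ t ∈ range T, ∑ t' ∈ range T, H ((t : ℤ) - t') := by
    apply Complex.ofReal_injective
    push_cast
    have f1 : ∀ q, ((‖∑ t ∈ range T, ee ((t : ℝ) * (Y q / M))‖ : ℂ)) ^ 2 =
        ∑ t ∈ range T, ∑ t' ∈ range T, ee ((((t : ℤ) - t' : ℤ) : ℝ) / M * Y q) := by
      intro q
      rw [← Complex.mul_conj', map_sum, sum_mul_sum]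
      apply sum_congr rfl
      intro t _
      apply sum_congr rfl
      intro t' _
      rw [Pool.Agent.H373R2.T7.conj_ee, ← ee_add]
      congr 1
      push_cast
      ring
    simp only [f1]
    rw [sum_comm]
    apply sum_congr rfl
    intro t _
    rw [sum_comm]
    apply sum_congr rfl
    intro t' _
    rw [hH, tuples]
    apply sum_congr rfl
    intro q _
    rw [hY]
  rw [h2] at h1
  have h3 := fold T H (fun s => by rw [hH]; positivity) (fun s => by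
    rw [hH, hH]
    congr 1
    have e1 : (((-s : ℤ) : ℝ) / M) = -((s : ℝ) / M) := by push_cast; ring
    rw [e1]
    exact even_norm g _)
  have h4 := h1.trans h3
  have e2 : ∑ s ∈ range T, H s = ∑ t ∈ range T, ‖∑ i, ee ((t : ℝ) / M * g i)‖ ^ (2 * p) := by
    apply sum_congr rfl
    intro s _
    rw [hH]
    push_cast
    rfl
  rw [e2] at h4
  obtain ⟨X, hX⟩ : ∃ X, X = ∑ t ∈ range T, ‖∑ i, ee ((t : ℝ) / M * g i)‖ ^ (2 * p) := ⟨_, rfl⟩
  rw [← hX] at h4 ⊢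
  have h5 : (E * T) * T ≤ (8 * X) * T := by nlinarith
  exact le_of_mul_le_mul_right h5 (by linarith)

open Classical in
/-- **The collision probability of a part** of a random number with a bounded moment -/
theorem coll_part (q : ℕ) (hq : 1 ≤ q) (C₀ : ℝ) (Y : ℕ) (hY : 1 ≤ Y) (s : Finset ℕ) (g : ℕ → ℝ)
    (h : Mo q C₀ Y s (fun _ => 1 / (s.card : ℝ)) g) (s' : Finset ℕ) (hs' : s' ⊆ s) (h0 : 0 < s'.card) :
    coll q (fun _ : {n // n ∈ s'} => 1 / (s'.card : ℝ)) (fun n => g n.1) * Y ≤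
      8 * C₀ * ((s.card : ℝ) / s'.card) ^ (2 * q) := by
  obtain ⟨M, hM⟩ : ∃ M, M = 12 * q * Y := ⟨_, rfl⟩
  have hM1 : 1 ≤ M := by rw [hM]; exact Nat.mul_pos (by omega) (by omega)
  have hs0 : 0 < s.card := lt_of_lt_of_le h0 (card_le_card hs')
  have hsr : (0 : ℝ) < s.card := by exact_mod_cast hs0
  have hs'r : (0 : ℝ) < s'.card := by exact_mod_cast h0
  -- the count over the whole set
  have h1 := near_count q hq (fun i : {n // n ∈ s} => g i.1) Y M hY hM1 (by rw [hM])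
  have h2 := h.mom
  rw [← hM] at h2
  obtain ⟨Z, hZ⟩ : ∃ Z : ℝ, Z = (s.card : ℝ) := ⟨_, rfl⟩
  have h3 : ∀ t : ℕ, ‖∑ i : {n // n ∈ s}, ee ((t : ℝ) / M * g i.1)‖ ^ (2 * q) =
      Z ^ (2 * q) * ‖∑ n ∈ s, ((1 / (s.card : ℝ) : ℝ) : ℂ) * ee ((t : ℝ) / M * g n)‖ ^ (2 * q) := by
    intro t
    have e1 : ∑ i : {n // n ∈ s}, ee ((t : ℝ) / M * g i.1) = ∑ n ∈ s, ee ((t : ℝ) / M * g n) := by
      rw [← sum_coe_sort s (fun n => ee ((t : ℝ) / M * g n))]
    rw [e1, ← mul_sum, ← hZ, norm_mul, mul_pow, ← mul_assoc]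
    have e4 : ‖(((1 / Z : ℝ)) : ℂ)‖ = 1 / Z := by
      rw [Complex.norm_real, Real.norm_eq_abs, abs_of_pos (by rw [hZ]; positivity)]
    rw [e4, ← mul_pow, mul_one_div_cancel (by rw [hZ]; exact hsr.ne'), one_pow, one_mul]
  simp only [h3] at h1
  rw [← mul_sum] at h1
  have h4 : (∑ r : (Fin q → {n // n ∈ s}) × (Fin q → {n // n ∈ s}),
      if |∑ j, g (r.1 j).1 - ∑ j, g (r.2 j).1| ≤ 1 then (1 : ℝ) else 0) * Y ≤ 8 * C₀ * Z ^ (2 * q) := by
    refine h1.trans ?_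
    calc _ ≤ 8 * (Z ^ (2 * q) * C₀) := by
          apply mul_le_mul_of_nonneg_left _ (by norm_num)
          exact mul_le_mul_of_nonneg_left h2 (by rw [hZ]; positivity)
      _ = _ := by ring
  -- the count over the part
  obtain ⟨emb, hemb⟩ : ∃ emb : {n // n ∈ s'} → {n // n ∈ s}, ∀ n, (emb n).1 = n.1 := ⟨fun n => ⟨n.1, hs' n.2⟩, fun _ => rfl⟩
  have hinj : Function.Injective emb := by
    intro a b hab
    apply Subtype.ext
    rw [← hemb a, ← hemb b, hab]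
  have h5 : (∑ r : (Fin q → {n // n ∈ s'}) × (Fin q → {n // n ∈ s'}),
      if |∑ j, g (r.1 j).1 - ∑ j, g (r.2 j).1| ≤ 1 then (1 : ℝ) else 0) ≤
      ∑ r : (Fin q → {n // n ∈ s}) × (Fin q → {n // n ∈ s}),
      if |∑ j, g (r.1 j).1 - ∑ j, g (r.2 j).1| ≤ 1 then (1 : ℝ) else 0 := by
    obtain ⟨e2, he2⟩ : ∃ e2 : (Fin q → {n // n ∈ s'}) × (Fin q → {n // n ∈ s'}) → (Fin q → {n // n ∈ s}) × (Fin q → {n // n ∈ s}),
      ∀ r, e2 r = (fun j => emb (r.1 j), fun j => emb (r.2 j)) := ⟨_, fun _ => rfl⟩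
    have hinj2 : Function.Injective e2 := by
      intro a b hab
      rw [he2, he2, Prod.mk.injEq] at hab
      apply Prod.ext
      · funext j
        exact hinj (congrFun hab.1 j)
      · funext j
        exact hinj (congrFun hab.2 j)
    calc _ = ∑ r ∈ (univ : Finset ((Fin q → {n // n ∈ s'}) × (Fin q → {n // n ∈ s'}))),
          (fun r : (Fin q → {n // n ∈ s}) × (Fin q → {n // n ∈ s}) =>
            if |∑ j, g (r.1 j).1 - ∑ j, g (r.2 j).1| ≤ 1 then (1 : ℝ) else 0) (e2 r) := by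
          apply sum_congr rfl
          intro r _
          simp only [he2, hemb]
      _ = ∑ r ∈ univ.map ⟨e2, hinj2⟩, (fun r : (Fin q → {n // n ∈ s}) × (Fin q → {n // n ∈ s}) =>
            if |∑ j, g (r.1 j).1 - ∑ j, g (r.2 j).1| ≤ 1 then (1 : ℝ) else 0) r := by
          rw [sum_map]
          rfl
      _ ≤ _ := sum_le_sum_of_subset_of_nonneg (subset_univ _) (fun r _ _ => by
          show (0 : ℝ) ≤ if _ then _ else _
          split_ifs <;> norm_num)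
  have hYr : (0 : ℝ) ≤ Y := Nat.cast_nonneg _
  have h6 : coll q (fun _ : {n // n ∈ s'} => 1 / (s'.card : ℝ)) (fun n => g n.1) =
      (1 / (s'.card : ℝ)) ^ (2 * q) * ∑ r : (Fin q → {n // n ∈ s'}) × (Fin q → {n // n ∈ s'}),
      if |∑ j, g (r.1 j).1 - ∑ j, g (r.2 j).1| ≤ 1 then (1 : ℝ) else 0 := by
    unfold coll
    rw [Fintype.sum_prod_type, mul_sum]
    apply sum_congr rfl
    intro x _
    rw [mul_sum]
    apply sum_congr rfl
    intro y _
    rw [prod_const, card_univ, Fintype.card_fin]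
    split_ifs
    · rw [mul_one, ← pow_add]
      congr 1
      omega
    · rw [mul_zero]
  rw [h6, mul_assoc]
  calc _ ≤ (1 / (s'.card : ℝ)) ^ (2 * q) * (8 * C₀ * Z ^ (2 * q)) := by
        apply mul_le_mul_of_nonneg_left _ (by positivity)
        exact (mul_le_mul_of_nonneg_right h5 hYr).trans h4
    _ = _ := by
        rw [hZ, div_pow, div_pow, one_pow]
        field_simp

end Pool.Agent.H34x.WV
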