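import Pool.Agent.H34x.WV.A

set_option autoImplicit false

/-! All windows around random numbers with bounded moments. -/

namespace Pool.Agent.H34x.WV
open Finset
open Pool.Agent.H373R2.T7
open Pool.Agent.HP25.OS (Mo)
open Pool.Agent.HP27.EN (coll)
open Pool.Agent.HP27.PG (mul)

/-- all windows of multiples of the primorial around `X` -/
def Win (ε : ℝ) (W N y : ℕ) (S : Finset ℕ) (X : ℝ) : Prop :=
  ∀ G : ℕ, Real.log N ^ W ≤ G → 2 * (primorial y * G) ≤ N →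
    (((Icc (-(G : ℤ)) G).filter (fun j => ((S.filter (fun s : ℕ => (mul (primorial y) X j - s).toNat.Prime)).card : ℝ) <
      (1 - ε) * (S.card / (Vz y * Real.log N)))).card : ℝ) ≤ ε * G

open Classical in
theorem win_one (A : ℕ) (ε : ℝ) (hε : 0 < ε) (hε1 : ε ≤ 1) : ∃ K₀ : ℕ, ∀ q : ℕ, 1 ≤ q → ∀ (C₀ : ℝ) (T K₁ U : ℕ), 0 < C₀ → 1 ≤ T →
    ∃ W N₀ : ℕ, ∀ N : ℕ, N₀ ≤ N → ∀ y : ℕ, K₀ * Real.log (Real.log N) ≤ y → y ≤ K₁ * Real.log (Real.log N) →
    ∀ S : Finset ℕ, S ⊆ Icc 1 N → (∀ s ∈ S, s.Prime) → (N : ℝ) ≤ S.card * Real.log N ^ A →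
    ∀ (Y : ℕ) (s : Finset ℕ) (g : ℕ → ℝ), 1 ≤ Y → N ≤ T * Y → Mo q C₀ Y s (fun _ => 1 / (s.card : ℝ)) g →
    ((s.filter (fun n => (2 * (N : ℝ) ≤ g n ∧ g n ≤ T * N) ∧ ¬ Win ε W N y S (g n))).card : ℝ) ≤ s.card / Real.log N ^ U := by
  obtain ⟨K₀, hK₀⟩ := Pool.Agent.HP27.PG.final A ε hε hε1
  refine ⟨K₀, fun q hq C₀ T K₁ U hC₀ hT => ?_⟩
  obtain ⟨W, n1, hn1⟩ := hK₀ q hq (2 * q * U + 1) T K₁ U
  obtain ⟨n2, hn2⟩ := ev_L' (8 * T * C₀ + 1)
  refine ⟨W, n1 + n2 + 1, fun N hN y hy1 hy2 S hS hSp hSA Y s g hY hNY hMo => ?_⟩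
  have hL := hn2 N (by omega)
  obtain ⟨L, hLd⟩ : ∃ L, L = Real.log N := ⟨_, rfl⟩
  have hn1' := hn1 N (by omega) y hy1 hy2 S hS hSp hSA
  have hTr : (1 : ℝ) ≤ T := by exact_mod_cast hT
  have hL1 : 1 ≤ L := by
    rw [hLd]
    have : 0 ≤ 8 * (T : ℝ) * C₀ := by positivity
    linarith
  have hLC : 8 * T * C₀ ≤ L := by rw [hLd]; linarith
  have hLU : 0 < L ^ U := by positivity
  obtain ⟨s', hs'⟩ : ∃ s', s' = s.filter (fun n => 2 * (N : ℝ) ≤ g n ∧ g n ≤ T * N) := ⟨_, rfl⟩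
  have hsub : s' ⊆ s := by rw [hs']; exact filter_subset _ _
  obtain ⟨bad, hbad⟩ : ∃ bad, bad = s.filter (fun n => (2 * (N : ℝ) ≤ g n ∧ g n ≤ T * N) ∧ ¬ Win ε W N y S (g n)) := ⟨_, rfl⟩
  rw [← hbad]
  have hbs : bad = s'.filter (fun n => ¬ Win ε W N y S (g n)) := by
    rw [hbad, hs', filter_filter]
  have hbs' : bad ⊆ s' := by rw [hbs]; exact filter_subset _ _
  rw [← hLd]
  rw [le_div_iff₀ hLU]
  by_cases hcase : (s'.card : ℝ) * L ^ U ≤ s.card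
  · have h1 : (bad.card : ℝ) ≤ s'.card := by exact_mod_cast card_le_card hbs'
    exact (mul_le_mul_of_nonneg_right h1 hLU.le).trans hcase
  · push Not at hcase
    have h0 : 0 < s'.card := by
      by_contra hcon
      have : s'.card = 0 := by omega
      rw [this] at hcase
      push_cast at hcase
      rw [zero_mul] at hcase
      have : (0 : ℝ) ≤ s.card := Nat.cast_nonneg _
      linarith
    have hs'r : (0 : ℝ) < s'.card := by exact_mod_cast h0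
    have hc := coll_part q hq C₀ Y hY s g hMo s' hsub h0
    have hratio : (s.card : ℝ) / s'.card ≤ L ^ U := by
      rw [div_le_iff₀ hs'r]
      linarith
    obtain ⟨cc, hcc⟩ : ∃ cc, cc = coll q (fun _ : {n // n ∈ s'} => 1 / (s'.card : ℝ)) (fun n => g n.1) := ⟨_, rfl⟩
    have hcc0 : 0 ≤ cc := by
      rw [hcc]
      unfold coll
      apply sum_nonneg
      intro x _
      apply sum_nonneg
      intro y _
      split_ifs
      · positivity
      · exact le_rfl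
    rw [← hcc] at hc
    have hcoll : (N : ℝ) * cc ≤ L ^ (2 * q * U + 1) := by
      have h1 : (N : ℝ) ≤ T * Y := by exact_mod_cast hNY
      calc (N : ℝ) * cc ≤ (T * Y) * cc := mul_le_mul_of_nonneg_right h1 hcc0
        _ = T * (cc * Y) := by ring
        _ ≤ T * (8 * C₀ * ((s.card : ℝ) / s'.card) ^ (2 * q)) := mul_le_mul_of_nonneg_left hc (by linarith)
        _ ≤ T * (8 * C₀ * (L ^ U) ^ (2 * q)) := by gcongr
        _ = (8 * T * C₀) * L ^ (2 * q * U) := by rw [← pow_mul, mul_comm U (2 * q)]; ring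
        _ ≤ L * L ^ (2 * q * U) := mul_le_mul_of_nonneg_right hLC (by positivity)
        _ = _ := by rw [pow_succ]; ring
    have h2 := hn1' {n // n ∈ s'} (fun _ => 1 / (s'.card : ℝ)) (fun n => g n.1) (fun _ => by positivity) (by
        rw [sum_const, card_univ, Fintype.card_coe, nsmul_eq_mul, mul_one_div_cancel hs'r.ne']) (fun x => by
        have hx2 := x.2
        have hx3 : x.1 ∈ s.filter (fun n => 2 * (N : ℝ) ≤ g n ∧ g n ≤ T * N) := by
          rw [← hs']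
          exact hx2
        exact (mem_filter.1 hx3).2) (by rw [← hcc, ← hLd]; exact hcoll)
    rw [← hLd] at h2
    have h3 : ∑ x : {n // n ∈ s'}, (if Win ε W N y S (g x.1) then 0 else (1 / (s'.card : ℝ))) = bad.card * (1 / (s'.card : ℝ)) := by
      rw [sum_coe_sort s' (fun n => if Win ε W N y S (g n) then 0 else (1 / (s'.card : ℝ)))]
      rw [hbs, ← nsmul_eq_mul, ← sum_const, sum_filter]
      apply sum_congr rfl
      intro n _
      by_cases h : Win ε W N y S (g n)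
      · rw [if_pos h, if_neg (not_not.2 h)]
      · rw [if_neg h, if_pos h]
    have h4 : (bad.card : ℝ) * (1 / (s'.card : ℝ)) ≤ 1 / L ^ U := by
      rw [← h3]
      refine le_trans (le_of_eq ?_) h2
      apply sum_congr rfl
      intro x _
      unfold Win
      rw [hLd]
    rw [mul_one_div, div_le_div_iff₀ hs'r hLU, one_mul] at h4
    exact h4.trans (by exact_mod_cast card_le_card hsub)

open Classical in
/-- many sets at once -/
theorem win_mo (A : ℕ) (ε : ℝ) (hε : 0 < ε) (hε1 : ε ≤ 1) : ∃ K₀ : ℕ, ∀ q : ℕ, 1 ≤ q → ∀ (C₀ : ℝ) (T B K₁ U : ℕ), 0 < C₀ → 1 ≤ T →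
    ∃ W N₀ : ℕ, ∀ N : ℕ, N₀ ≤ N → ∀ y : ℕ, K₀ * Real.log (Real.log N) ≤ y → y ≤ K₁ * Real.log (Real.log N) →
    ∀ L : ℕ, (L : ℝ) ≤ Real.log N ^ B → ∀ S : Fin L → Finset ℕ, (∀ l, S l ⊆ Icc 1 N) → (∀ l, ∀ s ∈ S l, s.Prime) →
    (∀ l, (N : ℝ) ≤ (S l).card * Real.log N ^ A) →
    ∀ (Y : ℕ) (s : Finset ℕ) (g : ℕ → ℝ), 1 ≤ Y → N ≤ T * Y → Mo q C₀ Y s (fun _ => 1 / (s.card : ℝ)) g →
    ((s.filter (fun n => (2 * (N : ℝ) ≤ g n ∧ g n ≤ T * N) ∧ ¬ ∀ l, Win ε W N y (S l) (g n))).card : ℝ) ≤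
      s.card / Real.log N ^ U := by
  obtain ⟨K₀, hK₀⟩ := win_one A ε hε hε1
  refine ⟨K₀, fun q hq C₀ T B K₁ U hC₀ hT => ?_⟩
  obtain ⟨W, n1, hn1⟩ := hK₀ q hq C₀ T K₁ (U + B) hC₀ hT
  obtain ⟨n2, hn2⟩ := ev_L' 1
  refine ⟨W, n1 + n2 + 1, fun N hN y hy1 hy2 L hL S hS hSp hSA Y s g hY hNY hMo => ?_⟩
  have hl := hn2 N (by omega)
  obtain ⟨l0, hl0⟩ : ∃ l0, l0 = Real.log N := ⟨_, rfl⟩
  have h1 : ∀ l, ((s.filter (fun n => (2 * (N : ℝ) ≤ g n ∧ g n ≤ T * N) ∧ ¬ Win ε W N y (S l) (g n))).card : ℝ) ≤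
      s.card / Real.log N ^ (U + B) := fun l => hn1 N (by omega) y hy1 hy2 (S l) (hS l) (hSp l) (hSA l) Y s g hY hNY hMo
  rw [← hl0] at hL hl h1 ⊢
  have hsub : s.filter (fun n => (2 * (N : ℝ) ≤ g n ∧ g n ≤ T * N) ∧ ¬ ∀ l, Win ε W N y (S l) (g n)) ⊆
      univ.biUnion (fun l : Fin L => s.filter (fun n => (2 * (N : ℝ) ≤ g n ∧ g n ≤ T * N) ∧ ¬ Win ε W N y (S l) (g n))) := by
    intro n hn
    rw [mem_filter] at hn
    obtain ⟨hns, hr, hw⟩ := hn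
    push Not at hw
    obtain ⟨l, hlw⟩ := hw
    rw [mem_biUnion]
    exact ⟨l, mem_univ _, mem_filter.2 ⟨hns, hr, hlw⟩⟩
  have h2 : ((s.filter (fun n => (2 * (N : ℝ) ≤ g n ∧ g n ≤ T * N) ∧ ¬ ∀ l, Win ε W N y (S l) (g n))).card : ℝ) ≤
      ∑ l : Fin L, ((s.filter (fun n => (2 * (N : ℝ) ≤ g n ∧ g n ≤ T * N) ∧ ¬ Win ε W N y (S l) (g n))).card : ℝ) := by
    exact_mod_cast (card_le_card hsub).trans card_biUnion_le
  calc _ ≤ ∑ l : Fin L, ((s.filter (fun n => (2 * (N : ℝ) ≤ g n ∧ g n ≤ T * N) ∧ ¬ Win ε W N y (S l) (g n))).card : ℝ) := h2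
    _ ≤ ∑ _l : Fin L, (s.card : ℝ) / l0 ^ (U + B) := sum_le_sum fun l _ => h1 l
    _ = L * ((s.card : ℝ) / l0 ^ (U + B)) := by rw [sum_const, card_univ, Fintype.card_fin, nsmul_eq_mul]
    _ ≤ l0 ^ B * ((s.card : ℝ) / l0 ^ (U + B)) := mul_le_mul_of_nonneg_right hL (by positivity)
    _ = s.card / l0 ^ U := by
        have : 0 < l0 := by linarith
        rw [pow_add]
        field_simp

lemma prim_pos (y : ℕ) : 1 ≤ primorial y := primorial_pos y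

/-- windows around close numbers -/
lemma win_near (ε : ℝ) (hε : 0 < ε) (W N y : ℕ) (S : Finset ℕ) (X X' : ℝ) (hX : |X - X'| ≤ 1) (hL : 4 / ε ≤ Real.log N ^ W)
    (hV : 0 ≤ (S.card : ℝ) / (Vz y * Real.log N)) (h : Win (ε / 2) W N y S X') : Win ε W N y S X := by
  classical
  intro G hG1 hG2
  have h1 := h G hG1 hG2
  obtain ⟨M, hM⟩ : ∃ M, M = primorial y := ⟨_, rfl⟩
  have hM1 : 1 ≤ M := by rw [hM]; exact prim_pos y
  have hM0 : (0 : ℝ) < M := by exact_mod_cast hM1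
  have hMr : (1 : ℝ) ≤ M := by exact_mod_cast hM1
  rw [← hM] at h1 ⊢
  -- the shift
  obtain ⟨d, hd⟩ : ∃ d : ℤ, d = ⌊X / M⌋ - ⌊X' / M⌋ := ⟨_, rfl⟩
  have hdd : |d| ≤ 1 := by
    have e1 : |X / M - X' / M| ≤ 1 := by
      rw [← sub_div, abs_div, abs_of_pos hM0, div_le_one hM0]
      linarith
    have f1 := Int.floor_le (X / M)
    have f2 := Int.lt_floor_add_one (X / M)
    have f3 := Int.floor_le (X' / M)
    have f4 := Int.lt_floor_add_one (X' / M)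
    rw [abs_le] at e1
    have g1 : ((d : ℤ) : ℝ) < 2 := by rw [hd]; push_cast; linarith [e1.2]
    have g2 : (-2 : ℝ) < ((d : ℤ) : ℝ) := by rw [hd]; push_cast; linarith [e1.1]
    have g3 : d < 2 := by exact_mod_cast g1
    have g4 : -2 < d := by exact_mod_cast g2
    rw [abs_le]
    omega
  have hmul : ∀ j, mul M X j = mul M X' (j + d) := by
    intro j
    unfold Pool.Agent.HP27.PG.mul
    rw [hd]
    ring
  obtain ⟨bX, hbX⟩ : ∃ bX, bX = (Icc (-(G : ℤ)) G).filter (fun j => ((S.filter (fun s : ℕ => (mul M X j - s).toNat.Prime)).card : ℝ) <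
      (1 - ε) * (S.card / (Vz y * Real.log N))) := ⟨_, rfl⟩
  obtain ⟨bX', hbX'⟩ : ∃ bX', bX' = (Icc (-(G : ℤ)) G).filter (fun j => ((S.filter (fun s : ℕ => (mul M X' j - s).toNat.Prime)).card : ℝ) <
      (1 - ε / 2) * (S.card / (Vz y * Real.log N))) := ⟨_, rfl⟩
  rw [← hbX'] at h1
  rw [← hbX]
  have hsub : bX ⊆ (bX' ∪ {((G : ℤ) + 1), -((G : ℤ) + 1)}).image (fun j => j - d) := by
    intro j hj
    rw [hbX, mem_filter, mem_Icc] at hj
    obtain ⟨⟨j1, j2⟩, hj3⟩ := hj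
    rw [mem_image]
    refine ⟨j + d, ?_, by ring⟩
    rw [abs_le] at hdd
    rw [mem_union]
    by_cases hjG : -(G : ℤ) ≤ j + d ∧ j + d ≤ G
    · left
      rw [hbX', mem_filter, mem_Icc]
      refine ⟨hjG, ?_⟩
      rw [← hmul j]
      refine lt_of_lt_of_le hj3 ?_
      apply mul_le_mul_of_nonneg_right _ hV
      linarith
    · right
      rw [mem_insert, mem_singleton]
      by_contra hcon
      push Not at hcon
      apply hjG
      omega
  have hcard : bX.card ≤ bX'.card + 2 := by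
    calc bX.card ≤ ((bX' ∪ {((G : ℤ) + 1), -((G : ℤ) + 1)}).image (fun j => j - d)).card := card_le_card hsub
      _ ≤ (bX' ∪ {((G : ℤ) + 1), -((G : ℤ) + 1)}).card := card_image_le
      _ ≤ bX'.card + ({((G : ℤ) + 1), -((G : ℤ) + 1)} : Finset ℤ).card := card_union_le _ _
      _ ≤ bX'.card + 2 := by
          have := card_le_two (a := ((G : ℤ) + 1)) (b := -((G : ℤ) + 1))
          omega
  have hcr : (bX.card : ℝ) ≤ bX'.card + 2 := by exact_mod_cast hcard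
  have hG4 : 4 / ε ≤ G := hL.trans hG1
  rw [div_le_iff₀ hε] at hG4
  linarith

end Pool.Agent.H34x.WV
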