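import Pool.Agent.H34x.WV.B
import Pool.Agent.HP25.FD.C

set_option autoImplicit false

/-! All windows around the multiples of the points of measures whose Fourier transforms decay polynomially. -/

namespace Pool.Agent.H34x.WV
open Finset MeasureTheory Filter Topology
open Pool.Agent.H373R2.T7
open Pool.Agent.HP25.OS (Mo)
open Pool.Agent.HP25.FD (Decay mo_decay bad_cells cell cell_close)

open Classical in
theorem win_decay (A : ℕ) (ε : ℝ) (hε : 0 < ε) (hε1 : ε ≤ 1) : ∃ K₀ : ℕ, ∀ (T T₂ B K₁ U : ℕ) (C δ : ℝ), 1 ≤ T₂ → 0 < δ →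
    ∃ W N₀ : ℕ, ∀ N : ℕ, N₀ ≤ N → ∀ y : ℕ, K₀ * Real.log (Real.log N) ≤ y → y ≤ K₁ * Real.log (Real.log N) →
    ∀ L : ℕ, (L : ℝ) ≤ Real.log N ^ B → ∀ S : Fin L → Finset ℕ, (∀ l, S l ⊆ Icc 1 N) → (∀ l, ∀ s ∈ S l, s.Prime) →
    (∀ l, (N : ℝ) ≤ (S l).card * Real.log N ^ A) →
    ∀ lam : ℝ, N ≤ T₂ * lam → ∀ (ν : Measure ℝ) [IsProbabilityMeasure ν], ν (Set.Icc (0 : ℝ) T)ᶜ = 0 → Decay ν C δ →
    ν.real {x | (2 * (N : ℝ) + 1 ≤ lam * x ∧ lam * x ≤ T₂ * N) ∧ ¬ ∀ l, Win ε W N y (S l) (lam * x)} ≤ 1 / Real.log N ^ U := by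
  obtain ⟨K₀, hK₀⟩ := win_mo A (ε / 2) (by linarith) (by linarith)
  refine ⟨K₀, fun T T₂ B K₁ U C δ hT₂ hδ => ?_⟩
  obtain ⟨q, C₀, hq, hC₀, hmo⟩ := mo_decay C δ hδ
  obtain ⟨W, n1, hn1⟩ := hK₀ q hq C₀ (2 * T₂) B K₁ (U + 1) hC₀ (by omega)
  obtain ⟨n2, hn2⟩ := ev_L' (4 / ε + 2)
  refine ⟨W + 1, n1 + n2 + T₂ + 1, fun N hN y hy1 hy2 L hL S hS hSp hSA lam hlam ν _ hν hdec => ?_⟩
  have hT₂r : (1 : ℝ) ≤ T₂ := by exact_mod_cast hT₂
  have hNr : (T₂ : ℝ) ≤ N := by exact_mod_cast (by omega : T₂ ≤ N)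
  have hN0 : (0 : ℝ) < N := by linarith
  have hlam1 : 1 ≤ lam := by
    by_contra hcon
    push Not at hcon
    have : (T₂ : ℝ) * lam < T₂ * 1 := mul_lt_mul_of_pos_left hcon (by linarith)
    linarith
  obtain ⟨n, D, ψ, hn, hD, hDl, hψ, hcell, hMo⟩ := hmo T ν hν hdec lam hlam1
  obtain ⟨Y, hY⟩ : ∃ Y, Y = ⌊lam⌋₊ := ⟨_, rfl⟩
  rw [← hY] at hMo
  have hY1 : 1 ≤ Y := by rw [hY]; exact Nat.le_floor (by exact_mod_cast hlam1)
  have hY1r : (1 : ℝ) ≤ Y := by exact_mod_cast hY1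
  have hYlt : lam < Y + 1 := by rw [hY]; exact Nat.lt_floor_add_one _
  have hNY : N ≤ 2 * T₂ * Y := by
    have h1 : (N : ℝ) ≤ 2 * T₂ * Y := by
      calc (N : ℝ) ≤ T₂ * lam := hlam
        _ ≤ T₂ * (2 * Y) := mul_le_mul_of_nonneg_left (by linarith) (by linarith)
        _ = _ := by ring
    exact_mod_cast h1
  obtain ⟨l0, hl0⟩ : ∃ l0, l0 = Real.log N := ⟨_, rfl⟩
  have hl := hn2 N (by omega)
  have hε4 : 0 < 4 / ε := by positivity
  have h1 := hn1 N (by omega) y hy1 hy2 L hL S hS hSp hSA Y (range n) (fun j => lam * ((ψ j : ℝ) / D)) hY1 hNY hMo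
  obtain ⟨Bd, hBd⟩ : ∃ Bd, Bd = {x : ℝ | (2 * (N : ℝ) + 1 ≤ lam * x ∧ lam * x ≤ T₂ * N) ∧
    ¬ ∀ l, Win ε (W + 1) N y (S l) (lam * x)} := ⟨_, rfl⟩
  rw [← hBd]
  have hbc := bad_cells ν T D n ψ hν hD hψ hcell Bd
  have hn0 : (0 : ℝ) < n := by exact_mod_cast hn
  have hD0 : (0 : ℝ) < D := by exact_mod_cast hD
  rw [card_range, ← hl0] at h1
  rw [← hl0] at hl
  have hl2 : 2 ≤ l0 := by linarith
  have hl4 : 4 / ε ≤ l0 := by linarith
  have hsub : (range n).filter (fun j => ∃ x ∈ Bd, x ∈ cell D (ψ j)) ⊆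
      (range n).filter (fun j => (2 * (N : ℝ) ≤ lam * ((ψ j : ℝ) / D) ∧ lam * ((ψ j : ℝ) / D) ≤ ((2 * T₂ : ℕ) : ℝ) * N) ∧
        ¬ ∀ l, Win (ε / 2) W N y (S l) (lam * ((ψ j : ℝ) / D))) := by
    intro j hj
    rw [mem_filter] at hj ⊢
    obtain ⟨hjn, x, hxB, hxc⟩ := hj
    rw [hBd, Set.mem_setOf_eq] at hxB
    obtain ⟨⟨hx1, hx2⟩, hx3⟩ := hxB
    have hcl := cell_close D (ψ j) x lam (by linarith) hDl hxc
    have hge : lam * ((ψ j : ℝ) / D) ≤ lam * x := mul_le_mul_of_nonneg_left hxc.1 (by linarith)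
    have hcl2 := abs_le.1 hcl
    refine ⟨hjn, ⟨by linarith [hcl2.2], ?_⟩, fun hall => hx3 fun l => ?_⟩
    · push_cast
      have : (T₂ : ℝ) * N ≤ 2 * T₂ * N := by nlinarith
      linarith
    · have hw := hall l
      have hw2 : Win (ε / 2) (W + 1) N y (S l) (lam * ((ψ j : ℝ) / D)) := by
        intro G hG1 hG2
        apply hw G _ hG2
        refine le_trans ?_ hG1
        rw [← hl0, pow_succ]
        exact le_mul_of_one_le_right (by positivity) (by linarith)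
      refine win_near ε hε (W + 1) N y (S l) (lam * x) (lam * ((ψ j : ℝ) / D)) hcl ?_ ?_ hw2
      · rw [← hl0, pow_succ]
        calc 4 / ε ≤ l0 := hl4
          _ = 1 * l0 := (one_mul _).symm
          _ ≤ l0 ^ W * l0 := mul_le_mul_of_nonneg_right (one_le_pow₀ (by linarith)) (by linarith)
      · rw [← hl0]
        have := Vz_pos y
        positivity
  have h2 : (((range n).filter (fun j => ∃ x ∈ Bd, x ∈ cell D (ψ j))).card : ℝ) ≤ n / l0 ^ (U + 1) :=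
    le_trans (by exact_mod_cast card_le_card hsub) h1
  have h3 : ν.real Bd * n ≤ 2 * (n / l0 ^ (U + 1)) := hbc.trans (by linarith)
  rw [← hl0]
  have hlU : 0 < l0 ^ U := by positivity
  have h4 : ν.real Bd * n ≤ (1 / l0 ^ U) * n := by
    refine h3.trans ?_
    rw [pow_succ]
    have e : 2 * ((n : ℝ) / (l0 ^ U * l0)) = (1 / l0 ^ U) * n * (2 / l0) := by field_simp
    rw [e]
    apply mul_le_of_le_one_right (by positivity)
    rw [div_le_one (by linarith)]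
    exact hl2
  exact le_of_mul_le_mul_right h4 hn0

/-- From an estimate at single scales to almost all points. -/
lemma ae_scales' (ν : Measure ℝ) [IsProbabilityMeasure ν] (N : ℕ → ℕ) (c : ℝ) (hc : 0 < c) (U : ℕ) (hU : 2 / c ≤ U)
    (hlam : ∀ᶠ k : ℕ in atTop, (k : ℝ) ^ c / 2 ≤ Real.log (N k)) (B : ℕ → Set ℝ)
    (h : ∀ᶠ k : ℕ in atTop, ν.real (B k) ≤ 1 / Real.log (N k) ^ U) :
    ∀ᵐ x ∂ν, ∀ᶠ k : ℕ in atTop, x ∉ B k := by
  obtain ⟨k₀, hk₀⟩ := eventually_atTop.1 ((hlam.and h).and (eventually_ge_atTop 1))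
  have hb : ∀ k, k₀ ≤ k → ν.real (B k) ≤ 2 ^ U * (1 / (k : ℝ) ^ 2) := by
    intro k hk
    obtain ⟨⟨h1, h2⟩, h3⟩ := hk₀ k hk
    refine h2.trans ?_
    have hk1 : (1 : ℝ) ≤ k := by exact_mod_cast h3
    have hkc : 1 ≤ (k : ℝ) ^ c := Real.one_le_rpow hk1 hc.le
    have hlp : 0 < Real.log (N k) := by linarith
    have h4 : (k : ℝ) ^ 2 ≤ 2 ^ U * Real.log (N k) ^ U := by
      calc (k : ℝ) ^ 2 = (k : ℝ) ^ (2 : ℝ) := by norm_cast
        _ ≤ (k : ℝ) ^ (c * U) := by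
            apply Real.rpow_le_rpow_of_exponent_le hk1
            rw [div_le_iff₀ hc] at hU
            linarith
        _ = ((k : ℝ) ^ c) ^ U := by rw [Real.rpow_mul (by positivity), Real.rpow_natCast]
        _ ≤ (2 * Real.log (N k)) ^ U := pow_le_pow_left₀ (by positivity) (by linarith) U
        _ = _ := by rw [mul_pow]
    rw [mul_one_div, div_le_div_iff₀ (by positivity) (by positivity), one_mul]
    exact h4
  have hae : ∀ᵐ x ∂ν, ∀ᶠ k : ℕ in atTop, x ∉ B (k + k₀) := by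
    apply ae_eventually_notMem
    have hs : Summable (fun k : ℕ => (2 : ℝ) ^ U * (1 / ((k : ℝ)) ^ 2)) :=
      (Real.summable_one_div_nat_pow.2 (by norm_num)).mul_left _
    have hs2 : Summable (fun k : ℕ => ν.real (B (k + k₀))) := by
      apply Summable.of_nonneg_of_le (fun _ => measureReal_nonneg) (fun k => ?_) ((summable_nat_add_iff k₀).2 hs)
      exact hb (k + k₀) (by omega)
    have e1 : ∀ k : ℕ, ν (B (k + k₀)) = ENNReal.ofReal (ν.real (B (k + k₀))) := by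
      intro k
      rw [ofReal_measureReal (measure_lt_top _ _).ne]
    simp only [e1]
    rw [← ENNReal.ofReal_tsum_of_nonneg (fun _ => measureReal_nonneg) hs2]
    exact ENNReal.ofReal_ne_top
  filter_upwards [hae] with x hx
  obtain ⟨k₁, hk₁⟩ := eventually_atTop.1 hx
  rw [eventually_atTop]
  refine ⟨k₁ + k₀, fun k hk => ?_⟩
  have := hk₁ (k - k₀) (by omega)
  rwa [Nat.sub_add_cancel (by omega)] at this

end Pool.Agent.H34x.WV
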